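import Pool.Agent.N207.AX.Conj
import Pool.Agent.N207.AX.Exp
import Pool.Agent.N227.CF.Low
import Pool.Agent.N667.AX.MOD
import Pool.Agent.N301.AX.INDV

/-!
# The modular Schanuel conjecture with derivatives at all conjugates of the points of families over a number field

Let `K` be a number field and let for each complex embedding `φ` of `K` a family of `p` points of the upper half-plane
and of `s` complex numbers be given, analytic functions `τ_(φ i)`, `w_(φ k)` on a connected open set `U_φ` of `ℂ ^ X`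
(for instance the conjugates of one family over `K`: points `τ_i` with algebraic `τ_i` or `j(τ_i)`, logarithms `w_k`),
with the usual conditions for each `φ`; nothing needs to be algebraic. At a point `s` of `K ^ X` we get `p [K : ℚ]`
points of the upper half-plane, at the conjugates `φ s`. In general they are not special and are pairwise not
equivalent, and the modular Schanuel conjecture with derivatives and special points predicts, together with Schanuel's
conjecture, `(3 p + s) [K : ℚ]` algebraically independent numbers among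

  `τ_(φ i)(φ s)`, `j`, `j'`, `j''` at these points, `w_(φ k)(φ s)`, `exp(w_(φ k)(φ s))`,

also if one adds the values `j'(v_1), …, j'(v_q)` at inequivalent special points `v_l` (where `j'(v_l) ≠ 0`). We show that
for 100 percent of the points `s` with given denominators `(3 p + s) [K : ℚ]` fixed ones among these numbers do not
satisfy any relation of growing degree and height, relative to arbitrary constants (for instance the monomials in the
`j'(v_l)`).
-/

set_option autoImplicit false

open Filter NumberField Topology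
open Pool.Agent

namespace Pool.Agent.Results.MP_f58a57_nt.AllConjugates

/-- The lattice `ℤ + ℤ τ`. -/
noncomputable def lattice (τ : ℂ) (h : 0 < τ.im) : PeriodPair where
  ω₁ := 1
  ω₂ := τ
  indep := (Y685.LL ⟨τ, h⟩).indep

/-- The modular invariant `j = 1728 g₂³ / (g₂³ - 27 g₃²)` on the upper half-plane. -/
noncomputable def j (τ : ℂ) : ℂ :=
  if h : 0 < τ.im then 1728 * (lattice τ h).g₂ ^ 3 / ((lattice τ h).g₂ ^ 3 - 27 * (lattice τ h).g₃ ^ 2) else 0

/-- The names of the functions. -/
inductive Name (p s : ℕ) : Type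
  | tau : Fin p → Name p s
  | j : Fin p → Name p s
  | dj : Fin p → Name p s
  | ddj : Fin p → Name p s
  | w : Fin s → Name p s
  | expw : Fin s → Name p s

/-- The values `τ_i(z)`, `j(τ_i(z))`, `j'(τ_i(z))`, `j''(τ_i(z))` (complex derivatives of `j`), `w_k(z)` and
`exp(w_k(z))`. -/
noncomputable def value {X : Type} {p s : ℕ} (τ : Fin p → (X → ℂ) → ℂ) (w : Fin s → (X → ℂ) → ℂ) (z : X → ℂ) :
    Name p s → ℂ
  | Name.tau i => τ i z
  | Name.j i => j (τ i z)
  | Name.dj i => deriv j (τ i z)
  | Name.ddj i => deriv (deriv j) (τ i z)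
  | Name.w k => w k z
  | Name.expw k => Complex.exp (w k z)

/-- An analytic family of points of `ℍ^p × ℂ^s`, depending on several parameters. -/
structure Family {X : Type} [Fintype X] {p s : ℕ} (U : Set (X → ℂ)) (τ : Fin p → (X → ℂ) → ℂ)
    (w : Fin s → (X → ℂ) → ℂ) : Prop where
  pos : 0 < p
  isOpen : IsOpen U
  isPreconnected : IsPreconnected U
  nonempty : U.Nonempty
  analytic : ∀ i, AnalyticOnNhd ℂ (τ i) U
  im_pos : ∀ i, ∀ z ∈ U, 0 < (τ i z).im
  nonconstant : ∀ i c, ∃ z ∈ U, τ i z ≠ c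
  /-- two of the functions `j(τ_i)` satisfy no polynomial relation near the point `x` of some complex line -/
  independent : ∀ i k, i ≠ k → ∃ x ∈ U, ∃ v : X → ℂ, ∀ P : MvPolynomial (Fin 2) ℂ, P ≠ 0 →
    ∃ᶠ t : ℂ in 𝓝 0, MvPolynomial.eval ![j (τ i (x + t • v)), j (τ k (x + t • v))] P ≠ 0
  analytic_w : ∀ k, AnalyticOnNhd ℂ (w k) U
  /-- no nontrivial combination with integral coefficients of the `w_k` is constant -/
  linear : ∀ (m : Fin s → ℤ) (c : ℂ), (∀ z ∈ U, ∑ k, (m k : ℂ) * w k z = c) → m = 0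

/-- the points of norm at most `k` at distance at least `1 / k` from the complement of `U` -/
def Inner {X : Type} [Fintype X] (U : Set (X → ℂ)) (k : ℕ) : Set (X → ℂ) := {z | ‖z‖ ≤ k ∧ Metric.ball z (k : ℝ)⁻¹ ⊆ U}

/-- the points with integral coordinates in `K` all of whose conjugates are at most `T` in absolute value -/
def Points (K X : Type) [Field K] [NumberField K] (T : ℝ) : Set (X → 𝓞 K) := {a | ∀ j, house (a j : K) ≤ T}

variable {K X : Type} [Field K] [NumberField K] [Fintype X]

/-- **The exceptional points**: `s` in `K ^ X`, all of whose conjugates `φ s` are in the compact sets `Inner (U φ) k`,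
such that some nonzero polynomial `R` of partial degrees at most `k`, whose coefficients are combinations `∑ ξ i * c i`
with integers `c i` of `L` all of whose conjugates are at most `T ^ k`, vanishes at the numbers `f φ y (φ s)`, `φ`
running through the embeddings of `K` -/
def Exceptional {σ : Type} (U : (K →+* ℂ) → Set (X → ℂ)) (f : (K →+* ℂ) → σ → (X → ℂ) → ℂ) (L : Type) [Field L]
    [NumberField L] (io : L →+* ℂ) (k : ℕ) (ξ : Fin k → ℂ) (T : ℝ) : Set (X → K) :=
  {s | (∀ φ : K →+* ℂ, (fun j => φ (s j)) ∈ Inner (U φ) k) ∧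
    ∃ R : MvPolynomial ((K →+* ℂ) × σ) ℂ, R ≠ 0 ∧ (∀ y, R.degreeOf y ≤ k) ∧
    (∀ m, ∃ c : Fin k → 𝓞 L, (∀ i (φ : L →+* ℂ), ‖φ (c i : L)‖ ≤ T ^ (k : ℝ)) ∧
      R.coeff m = ∑ i, ξ i * io (c i : L)) ∧
    MvPolynomial.eval (fun q => f q.1 q.2 fun j => q.1 (s j)) R = 0}

theorem j_eq {τ : ℂ} (h : 0 < τ.im) : j τ = Y776.jf τ := by
  have h1 : Y685.LC τ = lattice τ h := by
    rw [Y685.LC, UpperHalfPlane.ofComplex_apply_of_im_pos h]
    rfl
  rw [j, dif_pos h, Y776.jf, h1]

theorem j_ev {τ : ℂ} (h : 0 < τ.im) : j =ᶠ[nhds τ] Y776.jf := by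
  filter_upwards [Y776.AxJ.isOpen_H.mem_nhds h] with σ hσ
  exact j_eq hσ

theorem dj_eq {τ : ℂ} (h : 0 < τ.im) : deriv j τ = deriv Y776.jf τ := (j_ev h).deriv_eq

theorem dj_ev {τ : ℂ} (h : 0 < τ.im) : deriv j =ᶠ[nhds τ] deriv Y776.jf := by
  filter_upwards [Y776.AxJ.isOpen_H.mem_nhds h] with σ hσ
  exact dj_eq hσ

theorem ddj_eq {τ : ℂ} (h : 0 < τ.im) : deriv (deriv j) τ = deriv (deriv Y776.jf) τ := (dj_ev h).deriv_eq

theorem exists_name (X : Type) (p s : ℕ) : ∃ f : Y776.AxJ.Nj p s → Name p s, Function.Injective f ∧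
    ∀ (τ : Fin p → (X → ℂ) → ℂ) (w : Fin s → (X → ℂ) → ℂ) (z : X → ℂ), (∀ i, 0 < (τ i z).im) →
      ∀ i : Y776.AxJ.Nj p s, value τ w z (f i) = N207.AX.ym τ w i z := by
  let f : Y776.AxJ.Nj p s → Name p s := fun o => match o with
    | Sum.inl (i, 0) => Name.tau i
    | Sum.inl (i, 1) => Name.j i
    | Sum.inl (i, 2) => Name.dj i
    | Sum.inl (i, 3) => Name.ddj i
    | Sum.inr (Sum.inl k) => Name.w k
    | Sum.inr (Sum.inr k) => Name.expw k
  let g : Name p s → Y776.AxJ.Nj p s := fun o => match o with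
    | Name.tau i => Sum.inl (i, 0)
    | Name.j i => Sum.inl (i, 1)
    | Name.dj i => Sum.inl (i, 2)
    | Name.ddj i => Sum.inl (i, 3)
    | Name.w k => Sum.inr (Sum.inl k)
    | Name.expw k => Sum.inr (Sum.inr k)
  have hg : Function.LeftInverse g f := by
    rintro (⟨i, m⟩ | k | k)
    · fin_cases m <;> rfl
    · rfl
    · rfl
  refine ⟨f, hg.injective, ?_⟩
  rintro τ w z hz (⟨i, m⟩ | k | k)
  · fin_cases m
    · rfl
    · exact j_eq (hz i)
    · exact dj_eq (hz i)
    · exact ddj_eq (hz i)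
  · rfl
  · rfl

/-- independence on a line, for the function `jf` -/
theorem Family.line {X : Type} [Fintype X] {p s : ℕ} {U : Set (X → ℂ)} {τ : Fin p → (X → ℂ) → ℂ}
    {w : Fin s → (X → ℂ) → ℂ} (h : Family U τ w) (i k : Fin p) (hik : i ≠ k) :
    ∃ x ∈ U, ∃ v : X → ℂ, ∀ P : MvPolynomial (Fin 2) ℂ,
      (∀ᶠ t : ℂ in 𝓝 0, MvPolynomial.eval ![Y776.jf (τ i (x + t • v)), Y776.jf (τ k (x + t • v))] P = 0) →
        P = 0 := by
  obtain ⟨x, hx, v, hv⟩ := h.independent i k hik
  refine ⟨x, hx, v, fun P hP => ?_⟩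
  by_contra hne
  have hc : ContinuousAt (fun t : ℂ => x + t • v) 0 := by fun_prop
  have hU : ∀ᶠ t : ℂ in 𝓝 0, x + t • v ∈ U := hc.eventually_mem (by
    simpa using h.isOpen.mem_nhds hx)
  apply hv P hne
  filter_upwards [hP, hU] with t ht htU
  rw [not_not, j_eq (h.im_pos i _ htU), j_eq (h.im_pos k _ htU)]
  exact ht

/-- **The modular Schanuel conjecture with derivatives at all conjugates of almost all points.** Let `K` be a number
field and let a family as above be given for every complex embedding `φ` of `K`.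

One can choose, for each `φ`, `3 p + s` different functions `e_φk` among the `4 p + 2 s` functions such that there are
`ω → ∞` and `C` with the following property: for all large `T`, all number fields `L` of degree at most `ω T`, with an
embedding in the complex numbers such that `L` contains all conjugates of `K`, all complex numbers `ξ i`, `i < ω T`, and
all integral points `b` of `K` of house at most `T` with nonzero coordinates, the proportion of the integral points `x`
of `K` of house at most `T` such that `x / b` is exceptional is at most `C T ^ (-1 + 2 / ω T)`. So for 100 percent of the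
points `s = x / b` the `(3 p + s) [K : ℚ]` numbers have no nonzero polynomial relation of growing degree and height,
relative to arbitrary constants. -/
theorem result (K X : Type) [Field K] [NumberField K] [Fintype X] [DecidableEq X] [Nonempty X]
    (p s : ℕ) (U : (K →+* ℂ) → Set (X → ℂ)) (τ : (K →+* ℂ) → Fin p → (X → ℂ) → ℂ)
    (w : (K →+* ℂ) → Fin s → (X → ℂ) → ℂ) (h : ∀ φ, Family (U φ) (τ φ) (w φ)) :
    ∃ e : (K →+* ℂ) → Fin (3 * p + s) → Name p s, (∀ φ, Function.Injective (e φ)) ∧
    ∃ (ω : ℝ → ℕ) (C T₀ : ℝ), Tendsto ω atTop atTop ∧ Monotone ω ∧ ∀ T, T₀ ≤ T → 0 < ω T ∧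
      (Points K X T).Finite ∧ (Points K X T).Nonempty ∧
      ∀ (L : Type) [Field L] [NumberField L], Module.finrank ℚ L ≤ ω T → ∀ io : L →+* ℂ,
        (∀ φ : K →+* ℂ, ∃ φ' : K →+* L, io.comp φ' = φ) →
        ∀ (ξ : Fin (ω T) → ℂ), ∀ b ∈ Points K X T, (∀ j, b j ≠ 0) →
          ({x ∈ Points K X T | (fun j => (x j : K) / (b j : K)) ∈
              Exceptional U (fun φ k z => value (τ φ) (w φ) z (e φ k)) L io (ω T) ξ T}.ncard : ℝ) ≤
            C * T ^ (-1 + 2 / (ω T : ℝ)) * (Points K X T).ncard := by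
  classical
  choose e he hI using fun φ => N667.AX.modl N301.AX.indv X p s (U φ) (τ φ) (w φ) (h φ).pos (h φ).isOpen
    (h φ).isPreconnected (h φ).nonempty (h φ).analytic (h φ).im_pos (h φ).nonconstant (h φ).line (h φ).analytic_w
    (h φ).linear
  obtain ⟨f, hf, hv⟩ := exists_name X p s
  refine ⟨fun φ k => f (e φ k), fun φ a b hab => he φ (hf hab), ?_⟩
  have han : ∀ φ k, AnalyticOnNhd ℂ (N207.AX.ym (τ φ) (w φ) (e φ k)) (U φ) := fun φ k =>
    N667.AX.ym_an (h φ).analytic (h φ).im_pos (h φ).analytic_w (e φ k)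
  obtain ⟨c, C₁, hc, hC₁, hlow⟩ := N227.CF.low K X
  obtain ⟨ω, C, T₀, hC, h1, h2, h3⟩ := N207.AX.conj_ind (fun φ => (h φ).isPreconnected)
    (fun φ => (h φ).isOpen) (fun φ => (h φ).nonempty) han hI
  refine ⟨ω, C / c, max T₀ 1, h1, h2, fun T hT => ⟨(h3 T ((le_max_left _ _).trans hT)).1, ?_, ?_, ?_⟩⟩
  · exact (hlow T ((le_max_right _ _).trans hT)).1
  · refine ⟨0, fun j => ?_⟩
    have h5 : ((0 : X → 𝓞 K) j : K) = 0 := by simp
    have h6 : house (0 : K) = 0 := by simp [house]
    rw [h5, h6]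
    exact zero_le_one.trans ((le_max_right _ _).trans hT)
  · intro L _ _ hL io hemb ξ b hb hb0
    have hT1 : 1 ≤ T := (le_max_right _ _).trans hT
    have hTp : 0 < T := by linarith
    have hω : 0 < ω T := (h3 T ((le_max_left _ _).trans hT)).1
    obtain ⟨h3', h4⟩ := (h3 T ((le_max_left _ _).trans hT)).2 L hL io hemb ξ b (fun j => ⟨hb0 j, hb j⟩)
    obtain ⟨-, h5, -⟩ := hlow T hT1
    have hsub : {x ∈ Points K X T | (fun j => (x j : K) / (b j : K)) ∈
              Exceptional U (fun φ k z => value (τ φ) (w φ) z (f (e φ k))) L io (ω T) ξ T} ⊆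
        {a : X → 𝓞 K | (∀ j, house (a j : K) ≤ T) ∧
          (fun j => (a j : K) / (b j : K)) ∈
            N207.AX.ExcM U (fun φ k => N207.AX.ym (τ φ) (w φ) (e φ k)) L io (ω T) ξ T} := by
      rintro x ⟨hx, hx1, R, hR, hR1, hR2, hR3⟩
      refine ⟨hx, hx1, R, hR, hR1, hR2, ?_⟩
      rw [← hR3]
      congr 1
      congr 1
      funext q
      have hzU : (fun j => q.1 ((x j : K) / (b j : K))) ∈ U q.1 :=
        Y890.MV.innerM_sub (U q.1) hω (hx1 q.1)
      exact (hv (τ q.1) (w q.1) _ (fun i => (h q.1).im_pos i _ hzU) (e q.1 q.2)).symm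
    have h6 : ({x ∈ Points K X T | (fun j => (x j : K) / (b j : K)) ∈
              Exceptional U (fun φ k z => value (τ φ) (w φ) z (f (e φ k))) L io (ω T) ξ T}.ncard : ℝ) ≤
        C * T ^ ((Module.finrank ℚ K * Fintype.card X : ℝ) - 1 + 2 * ((ω T : ℝ)⁻¹)) :=
      le_trans (by exact_mod_cast Set.ncard_le_ncard hsub h3') h4
    refine h6.trans ?_
    have h7 : (T : ℝ) ^ ((Module.finrank ℚ K * Fintype.card X : ℝ) - 1 + 2 * ((ω T : ℝ)⁻¹)) =
        T ^ (-1 + 2 / (ω T : ℝ)) * T ^ (Module.finrank ℚ K * Fintype.card X) := by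
      rw [← Real.rpow_natCast T (Module.finrank ℚ K * Fintype.card X), ← Real.rpow_add hTp]
      congr 1
      push_cast
      ring
    rw [h7]
    have h8 : T ^ (Module.finrank ℚ K * Fintype.card X) ≤ ((Points K X T).ncard : ℝ) / c := by
      rw [le_div_iff₀ hc, mul_comm]
      exact h5
    calc C * (T ^ (-1 + 2 / (ω T : ℝ)) * T ^ (Module.finrank ℚ K * Fintype.card X)) ≤
          C * (T ^ (-1 + 2 / (ω T : ℝ)) * (((Points K X T).ncard : ℝ) / c)) :=
          mul_le_mul_of_nonneg_left (mul_le_mul_of_nonneg_left h8 (by positivity)) hC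
      _ = _ := by ring

end Pool.Agent.Results.MP_f58a57_nt.AllConjugates
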