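import Pool.Agent.N318.TG.A
import Pool.Agent.Results.MP_f58a57_nt.AlgebraicInvariants

/-!
# Modular invariants near multiples of the values of multiplicative functions

Let `F_1, …, F_k` be positive multiplicative functions of at most polynomial growth with `F_i(p) ≤ M p` for the large primes
`p`, with different values at different large primes; for example Euler's function or the sum of the divisors. For all
`q`, `k`, `d`, `δ` there is `η > 0` such that for all such `F_i` and all `U`, for all large `N` and all complex numbers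
`w_1, …, w_q` the following holds for all but `N ^ k / (log N) ^ U` of the `k`-tuples `m` of positive integers `≤ N`. All
`F_i(m_i)` are at least `2`, and for ALL integers `a_i ≠ 0` and `b_i` which are bounded in absolute value by `F_l(m_l) ^ η`
for some `l`, the following holds for the integers `α_i = a_i F_i(m_i) + b_i`: for all points `z_i` of the upper half-plane
with `j(z_i) = α_i`, every relation of degree at most `δ` between `z_i`, `j'(z_i)`, `j''(z_i)` with coefficients which are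
polynomials in `2 π i, w_1, …, w_q` over a number field of degree at most `d` is trivial. With `w_l = j'(τ_l)`, `τ_l` special,
this is the bound `3 m_1 + m_2` of the modular Schanuel conjecture with derivatives for relations of degree `≤ δ`.

The values of the functions `F_i` have very large multiplicities and are a thin set, and so this does not follow from the
number of exceptional tuples of integers alone.
-/

set_option autoImplicit false

namespace Pool.Agent.Results.MP_f58a57_nt.MultiplicativeValues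

open Pool.Agent.N733.TG (LM lm_totient lm_sigma)
open Pool.Agent.Results.MP_f58a57_nt.AlgebraicInvariants (Exceptional Z)

lemma int_mem_Z {n : ℤ} {T : ℕ} (h : |n| ≤ (T : ℤ)) : (n : ℂ) ∈ Z 1 T := by
  have h1 : minpoly ℚ (n : ℂ) = Polynomial.X - Polynomial.C (n : ℚ) := by
    have := minpoly.eq_X_sub_C (A := ℚ) ℂ (n : ℚ)
    rw [← this]
    simp
  refine ⟨?_, ?_, fun z hz => ?_⟩
  · have := isIntegral_algebraMap (R := ℤ) (A := ℂ) (x := n)
    simpa using this
  · rw [h1, Polynomial.natDegree_X_sub_C]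
  · rw [h1] at hz
    have h2 : z = (n : ℂ) := by
      simpa [sub_eq_zero] using hz
    rw [h2, Complex.norm_intCast]
    exact_mod_cast h

lemma mem_Z_int {ξ : ℂ} {T : ℕ} (h : ξ ∈ Z 1 T) : ∃ n : ℤ, |n| ≤ (T : ℤ) ∧ (n : ℂ) = ξ := by
  obtain ⟨h1, h2, h3⟩ := h
  have hq : IsIntegral ℚ ξ := h1.tower_top
  have h4 : (minpoly ℚ ξ).natDegree = 1 := le_antisymm h2 (minpoly.natDegree_pos hq)
  obtain ⟨r, hr⟩ := minpoly.natDegree_eq_one_iff.1 h4
  have h5 : IsIntegral ℤ r := by
    rw [← hr] at h1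
    exact (isIntegral_algebraMap_iff (algebraMap ℚ ℂ).injective).1 h1
  obtain ⟨n, hn⟩ := IsIntegrallyClosed.isIntegral_iff.1 h5
  have h6 : (n : ℂ) = ξ := by
    rw [← hr, ← hn]
    simp
  refine ⟨n, ?_, h6⟩
  have h7 := h3 ξ (minpoly.aeval ℚ ξ)
  rw [← h6, Complex.norm_intCast] at h7
  exact_mod_cast h7

lemma Z_one_card (T : ℕ) : (Z 1 T).ncard ≤ 2 * T + 1 := by
  have hsub : Z 1 T ⊆ ((fun n : ℤ => (n : ℂ)) '' (Finset.Icc (-(T : ℤ)) T : Finset ℤ)) := by
    intro ξ hξ
    obtain ⟨n, hn, h⟩ := mem_Z_int hξ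
    exact ⟨n, by rw [Finset.mem_coe, Finset.mem_Icc]; exact abs_le.1 hn, h⟩
  have h1 := Set.ncard_le_ncard hsub ((Finset.finite_toSet _).image _)
  refine h1.trans ((Set.ncard_image_le (Finset.finite_toSet _)).trans ?_)
  rw [Set.ncard_coe_finset, Int.card_Icc]
  omega

/-- **Theorem.** For all `q`, `k ≥ 1`, `d`, `δ` there is `η > 0` such that for all `F_1, …, F_k` which are LM and all `U` there is
`N₀` such that for all `N ≥ N₀` and all complex numbers `w_1, …, w_q`: for all but at most `N ^ k / (log N) ^ U` of the tuples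
`m` of positive integers `≤ N`, all `F_i(m_i)` are at least `2` and for all integers `a_i ≠ 0`, `b_i` with
`|a_i|, |b_i| ≤ F_l(m_l) ^ η` (for some `l` which does not depend on `i`) the tuple `(a_i F_i(m_i) + b_i)` is not exceptional.
Euler's function and the sum of the divisors are LM. -/
theorem result (q k d δ : ℕ) (hk : 1 ≤ k) :
    (∃ η : ℝ, 0 < η ∧ ∀ F : Fin k → ℕ → ℕ, (∀ i, LM (F i)) → ∀ U : ℕ, ∃ N₀ : ℕ, ∀ N : ℕ, N₀ ≤ N → ∀ w : Fin q → ℂ,
      ({m : Fin k → ℕ | (∀ i, 1 ≤ m i ∧ m i ≤ N) ∧ ¬ ((∀ i, 2 ≤ F i (m i)) ∧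
        ∀ a b : Fin k → ℤ, (∃ l, ∀ i, a i ≠ 0 ∧ |(a i : ℝ)| ≤ (F l (m l) : ℝ) ^ η ∧ |(b i : ℝ)| ≤ (F l (m l) : ℝ) ^ η) →
        ¬ Exceptional δ d w (fun i => (a i : ℂ) * (F i (m i) : ℂ) + (b i : ℂ)))}.ncard : ℝ) ≤
        (N : ℝ) ^ k / Real.log N ^ U) ∧
    LM Nat.totient ∧ LM (fun m => ∑ d ∈ m.divisors, d) := by
  refine ⟨?_, lm_totient, lm_sigma⟩
  obtain ⟨c, hc, C, hC, h⟩ := AlgebraicInvariants.result q k 1 d δ le_rfl
  obtain ⟨η, hη, hkeep⟩ := Pool.Agent.N318.TG.keep_near hk hc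
  refine ⟨η, hη, fun F hF U => ?_⟩
  obtain ⟨N₀, hN₀⟩ := hkeep F hF (C * 3 ^ k) U
  refine ⟨N₀, fun N hN w => ?_⟩
  have h1 := hN₀ N hN {α : Fin k → ℤ | Exceptional δ d w (fun i => ((α i : ℤ) : ℂ))} (fun T hT => ?_)
  · refine le_trans (le_of_eq ?_) h1
    congr 2
    ext m
    simp only [Set.mem_ofPred_eq, Int.cast_add, Int.cast_mul, Int.cast_natCast]
  · obtain ⟨hfin, h2⟩ := h w T hT
    have hT1 : (1 : ℝ) ≤ T := by exact_mod_cast hT
    have hT0 : (0 : ℝ) < T := by linarith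
    have hfin2 : {α : Fin k → ℂ | (∀ i, α i ∈ Z 1 T) ∧ Exceptional δ d w α}.Finite :=
      (Set.Finite.pi' fun _ : Fin k => hfin).subset fun α hα => hα.1
    have h3 : {α : Fin k → ℤ | (∀ i, |α i| ≤ (T : ℤ)) ∧
        α ∈ {α : Fin k → ℤ | Exceptional δ d w (fun i => ((α i : ℤ) : ℂ))}}.ncard ≤
        {α : Fin k → ℂ | (∀ i, α i ∈ Z 1 T) ∧ Exceptional δ d w α}.ncard := by
      refine Set.ncard_le_ncard_of_injOn (fun α i => ((α i : ℤ) : ℂ)) ?_ ?_ hfin2
      · rintro α ⟨h4, h5⟩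
        exact ⟨fun i => int_mem_Z (h4 i), h5⟩
      · intro α _ β _ hαβ
        funext i
        have h6 : ((α i : ℤ) : ℂ) = ((β i : ℤ) : ℂ) := congrFun hαβ i
        exact_mod_cast h6
    have h4 : ((Z 1 T).ncard : ℝ) ≤ 3 * T := by
      have h5 : (((Z 1 T).ncard : ℕ) : ℝ) ≤ ((2 * T + 1 : ℕ) : ℝ) := by exact_mod_cast Z_one_card T
      push_cast at h5
      linarith
    calc (({α : Fin k → ℤ | (∀ i, |α i| ≤ (T : ℤ)) ∧
        α ∈ {α : Fin k → ℤ | Exceptional δ d w (fun i => ((α i : ℤ) : ℂ))}}.ncard : ℕ) : ℝ)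
        ≤ (({α : Fin k → ℂ | (∀ i, α i ∈ Z 1 T) ∧ Exceptional δ d w α}.ncard : ℕ) : ℝ) := by exact_mod_cast h3
      _ ≤ C * (T : ℝ) ^ (-c) * ((Z 1 T).ncard : ℝ) ^ k := h2
      _ ≤ C * (T : ℝ) ^ (-c) * (3 * T) ^ k :=
          mul_le_mul_of_nonneg_left (pow_le_pow_left₀ (Nat.cast_nonneg _) h4 k) (by positivity)
      _ = C * 3 ^ k * (T : ℝ) ^ ((k : ℝ) - c) := by
          rw [mul_pow, sub_eq_neg_add, Real.rpow_add hT0, Real.rpow_natCast]
          ring

end Pool.Agent.Results.MP_f58a57_nt.MultiplicativeValues
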