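import Pool.Agent.N665.DA.Near
import Pool.Agent.Results.MP_f58a57_nt.MultiplicativeValues

/-!
# Modular invariants near multiples of the best approximation vectors of systems of linear forms

For all `q`, `k ≥ 1`, `d`, `δ` there is `η > 0` such that for all complex numbers `w_1, …, w_q`, all `m`, `β ∈ ℝ^m` and `τ > 0`
the following holds for all real matrices `α` with `k` rows and `m` columns outside a set of Hausdorff dimension at most
`(k - 1) m + (m + k - η) / (1 + τ)` and all `c`. For all large integer vectors `v` with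
`‖(v α)_j - β_j‖ ≤ c |v| ^ (-τ)` for all `j`, where `‖x‖` is the distance of `x` to the nearest integer, and for ALL integers
`a_i ≠ 0` and `b_i` of absolute value at most `|v| ^ η` the following holds for the integers `a_i v_i + b_i`: for all points
`z_i` of the upper half-plane with `j(z_i) = a_i v_i + b_i`, every relation of degree at most `δ` between `z_i`, `j'(z_i)`,
`j''(z_i)` with coefficients which are polynomials in `2 π i, w_1, …, w_q` over a number field of degree at most `d` is
trivial. With `w_l = j'(τ_l)`, `τ_l` special, this is the bound `3 m_1 + m_2` of the modular Schanuel conjecture with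
derivatives for relations of degree `≤ δ`.

For `τ = k / m`, `β = 0` and `c = 1` these are all the best approximation vectors `v` of the system `α` of `m` linear forms in
`k` variables, and the bound for the dimension is less than `k m`. They are a sparse sequence, and so this does not follow
from the number of exceptional tuples of integers alone.

Proof. The starting theorem `AlgebraicInvariants` of this problem bounds the number of the exceptional tuples of integers by
`C T^(k - c)`; so there are also few integer vectors for which some `(a_i v_i + b_i)` is exceptional. The matrices `α` with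
`‖(v α)_j - β_j‖ ≤ c |v| ^ (-τ)` form neighbourhoods of parallel affine subspaces, covered by cubes of side
`|v| ^ (-1 - τ)` (`Pool.Agent.N671.DA`).
-/

set_option autoImplicit false

namespace Pool.Agent.Results.MP_f58a57_nt.BestApproximations

open Pool.Agent.N671.DA (Near)
open Pool.Agent.N665.DA (approx_near)
open Pool.Agent.Results.MP_f58a57_nt.AlgebraicInvariants (Exceptional Z)
open Pool.Agent.Results.MP_f58a57_nt.MultiplicativeValues (int_mem_Z Z_one_card)

/-- **Theorem.** For all `q`, `k ≥ 1`, `d`, `δ` there is `η > 0` such that for all complex numbers `w_1, …, w_q`, all `m`,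
`β ∈ ℝ^m` and `τ > 0`, for all real matrices `α` with `k` rows and `m` columns outside a set of Hausdorff dimension at most
`(k - 1) m + (m + k - η) / (1 + τ)` and all `c`: for all large integer vectors `v` with `‖(v α)_j - β_j‖ ≤ c |v| ^ (-τ)` for
all `j` and for all integers `a_i ≠ 0`, `b_i` with `|a_i|, |b_i| ≤ |v| ^ η` the tuple `(a_i v_i + b_i)` is not exceptional. -/
theorem result (q k d δ : ℕ) (hk : 1 ≤ k) :
    ∃ η : ℝ, 0 < η ∧ ∀ (w : Fin q → ℂ) (m : ℕ) (β : Fin m → ℝ) (τ : ℝ), 0 < τ →
      ∃ S : Set (Fin k × Fin m → ℝ),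
        dimH S ≤ ENNReal.ofReal (((k : ℝ) - 1) * m + (m + ((k : ℝ) - η)) / (1 + τ)) ∧
        ∀ α, α ∉ S → ∀ c : ℝ, ∃ Q : ℝ, ∀ v : Fin k → ℤ, Q ≤ ‖v‖ → Near α β v (c * ‖v‖ ^ (-τ)) →
          ∀ a b : Fin k → ℤ, (∀ i, a i ≠ 0 ∧ |(a i : ℝ)| ≤ ‖v‖ ^ η ∧ |(b i : ℝ)| ≤ ‖v‖ ^ η) →
            ¬ Exceptional δ d w (fun i => (a i : ℂ) * (v i : ℂ) + (b i : ℂ)) := by
  obtain ⟨c, hc, C, hC, h⟩ := AlgebraicInvariants.result q k 1 d δ le_rfl
  obtain ⟨η, hη, hnear⟩ := approx_near hk hc
  refine ⟨η, hη, fun w m β τ hτ => ?_⟩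
  obtain ⟨S, hS, hS2⟩ := hnear {α : Fin k → ℤ | Exceptional δ d w (fun i => ((α i : ℤ) : ℂ))} (C * 3 ^ k)
    (fun T hT => by
      obtain ⟨hfin, h2⟩ := h w T hT
      have hT1 : (1 : ℝ) ≤ T := by exact_mod_cast hT
      have hT0 : (0 : ℝ) < T := by linarith
      have hfin2 : {α : Fin k → ℂ | (∀ i, α i ∈ Z 1 T) ∧ Exceptional δ d w α}.Finite :=
        (Set.Finite.pi' fun _ : Fin k => hfin).subset fun α hα => hα.1
      have h3 : {α : Fin k → ℤ | (∀ i, |α i| ≤ (T : ℤ)) ∧
          α ∈ {α : Fin k → ℤ | Exceptional δ d w (fun i => ((α i : ℤ) : ℂ))}}.ncard ≤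
          {α : Fin k → ℂ | (∀ i, α i ∈ Z 1 T) ∧ Exceptional δ d w α}.ncard := by
        refine Set.ncard_le_ncard_of_injOn (fun α i => ((α i : ℤ) : ℂ)) ?_ ?_ hfin2
        · rintro α ⟨h4, h5⟩
          exact ⟨fun i => int_mem_Z (h4 i), h5⟩
        · intro α _ β _ hαβ
          funext i
          have h6 : ((α i : ℤ) : ℂ) = ((β i : ℤ) : ℂ) := congrFun hαβ i
          exact_mod_cast h6
      have h4 : ((Z 1 T).ncard : ℝ) ≤ 3 * T := by
        have h5 : (((Z 1 T).ncard : ℕ) : ℝ) ≤ ((2 * T + 1 : ℕ) : ℝ) := by exact_mod_cast Z_one_card T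
        push_cast at h5
        linarith
      calc (({α : Fin k → ℤ | (∀ i, |α i| ≤ (T : ℤ)) ∧
          α ∈ {α : Fin k → ℤ | Exceptional δ d w (fun i => ((α i : ℤ) : ℂ))}}.ncard : ℕ) : ℝ)
          ≤ (({α : Fin k → ℂ | (∀ i, α i ∈ Z 1 T) ∧ Exceptional δ d w α}.ncard : ℕ) : ℝ) := by exact_mod_cast h3
        _ ≤ C * (T : ℝ) ^ (-c) * ((Z 1 T).ncard : ℝ) ^ k := h2
        _ ≤ C * (T : ℝ) ^ (-c) * (3 * T) ^ k :=
            mul_le_mul_of_nonneg_left (pow_le_pow_left₀ (Nat.cast_nonneg _) h4 k) (by positivity)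
        _ = C * 3 ^ k * (T : ℝ) ^ ((k : ℝ) - c) := by
            rw [mul_pow, sub_eq_neg_add, Real.rpow_add hT0, Real.rpow_natCast]
            ring) m β τ hτ
  refine ⟨S, hS, fun α hα c₁ => ?_⟩
  obtain ⟨Q, hQ⟩ := hS2 α hα c₁
  refine ⟨Q, fun v hv h1 a b hab hexc => ?_⟩
  refine hQ v hv h1 a b hab ?_
  simpa only [Set.mem_ofPred_eq, Int.cast_add, Int.cast_mul] using hexc

end Pool.Agent.Results.MP_f58a57_nt.BestApproximations
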