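import Pool.Agent.N113.SL.Main

/-!
# The modular Schanuel conjecture with derivatives and special points is equivalent to a statement on
`ℚ`-linear relations

Let `t_1, …, t_(m₁)` be points of the upper half-plane which are not special (CM), `s_1, …, s_(m₂)` special
points with `j'(s_k) ≠ 0`, all of them pairwise inequivalent under `GL₂(ℚ)` (the condition `j'(t_i) ≠ 0` is
automatic). The conjecture says that the numbers `t_i`, `j(t_i)`, `j'(t_i)`, `j''(t_i)`, `s_k`, `j(s_k)`,
`j'(s_k)`, `j''(s_k)` generate a field of transcendence degree at least `3 m₁ + m₂`.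

We consider the additive (that is, `ℚ`-linear) maps `D : ℂ → ℂ` which vanish at the algebraic numbers and
satisfy the rule of differentiation **only for the inverses of the numbers `t_i + c`**, `c = 0, 1, 2, …`:
`D (1 / (t_i + c)) = - D (t_i) / (t_i + c)²`. Nothing is required of products, and there is no condition at
the special points (although `j''(s_k)` is algebraic over the field generated by `j'(s_k)`). The values
of these maps at the coordinates form a space of vectors; its dimension is at least the
transcendence degree, and it can be much larger.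

We prove: the conjecture holds if and only if this space has dimension at least `3 m₁ + m₂` for all
tuples `t`, `s`. Moreover, without any hypothesis, for every finite family `s` of complex numbers (special
points or arbitrary numbers), every `t` and every integer `d`: all the tuples `y` containing `t` satisfy
the lower bound `3 |y| + d` for the transcendence degree (with the coordinates at `s`) if and only if all
of them satisfy the bound for the dimension.

The proof is the one of `MP_ede373_nt.InversionsSuffice`, relative to the fixed coordinates at the points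
`s`: all polynomial relations with rational coefficients between the coordinates are consequences of
linear relations between the coordinates of a larger tuple, and the extension costs nothing.
-/

set_option autoImplicit false

open Pool.Agent.N113

namespace Pool.Agent.Results.MP_f58a57_nt.InversionsSufficeSpecial

/-- the normalised Eisenstein series of weight `4` -/
noncomputable def E4 (τ : ℂ) : ℂ :=
  1 + 240 * ∑' m : ℕ, ((ArithmeticFunction.sigma 3 (m + 1) : ℕ) : ℂ) *
    Complex.exp (2 * (Real.pi : ℂ) * Complex.I * ((m : ℂ) + 1) * τ)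

/-- the normalised Eisenstein series of weight `6` -/
noncomputable def E6 (τ : ℂ) : ℂ :=
  1 - 504 * ∑' m : ℕ, ((ArithmeticFunction.sigma 5 (m + 1) : ℕ) : ℂ) *
    Complex.exp (2 * (Real.pi : ℂ) * Complex.I * ((m : ℂ) + 1) * τ)

/-- the modular invariant `j = q⁻¹ + 744 + 196884 q + ⋯` -/
noncomputable def J (τ : ℂ) : ℂ := 1728 * E4 τ ^ 3 / (E4 τ ^ 3 - E6 τ ^ 2)

/-- The numbers `z`, `j(z)`, `j'(z)`, `j''(z)` (complex derivatives). -/
noncomputable def numbers (z : ℂ) : Fin 4 → ℂ := ![z, J z, deriv J z, deriv (deriv J) z]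

/-- Special points: the zeros of quadratic polynomials with integer coefficients. -/
def IsSpecial (z : ℂ) : Prop :=
  ∃ a b c : ℤ, (a ≠ 0 ∨ b ≠ 0 ∨ c ≠ 0) ∧ (a : ℂ) * z ^ 2 + b * z + c = 0

/-- The points `z` and `w` of the upper half-plane are in one orbit of `GL₂(ℚ)`. -/
def Equivalent (z w : ℂ) : Prop :=
  ∃ a b c d : ℚ, 0 < a * d - b * c ∧ w * (c * z + d) = a * z + b

/-- Points of the upper half-plane which are not special and pairwise inequivalent. -/
structure General {κ : Type} (t : κ → ℂ) : Prop where
  im_pos : ∀ i, 0 < (t i).im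
  not_special : ∀ i, ¬ IsSpecial (t i)
  inequivalent : ∀ i k, i ≠ k → ¬ Equivalent (t i) (t k)

/-- Special points with `j' ≠ 0`, pairwise inequivalent. -/
structure Special {l : Type} (s : l → ℂ) : Prop where
  im_pos : ∀ i, 0 < (s i).im
  special : ∀ i, IsSpecial (s i)
  deriv_ne : ∀ i, deriv J (s i) ≠ 0
  inequivalent : ∀ i k, i ≠ k → ¬ Equivalent (s i) (s k)

/-- The coordinates at the points `t` and `s`. -/
noncomputable def coordinates {κ l : Type} (t : κ → ℂ) (s : l → ℂ) (x : (κ ⊕ l) × Fin 4) : ℂ :=
  numbers (Sum.elim t s x.1) x.2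

/-- The modular Schanuel conjecture with derivatives and special points. -/
def Conjecture : Prop := ∀ (m₁ m₂ : ℕ) (t : Fin m₁ → ℂ) (s : Fin m₂ → ℂ), General t → Special s →
  ∃ f : Fin (3 * m₁ + m₂) → (Fin m₁ ⊕ Fin m₂) × Fin 4,
    AlgebraicIndependent ℚ fun k => coordinates t s (f k)

/-- The additive map `D` vanishes at the algebraic numbers and satisfies the rule of differentiation for
the inverses of the numbers `t i + c`, `c = 0, 1, 2, …`. -/
def Admissible {κ : Type} (t : κ → ℂ) (D : ℂ →ₗ[ℚ] ℂ) : Prop :=
  (∀ a : ℂ, IsAlgebraic ℚ a → D a = 0) ∧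
    ∀ (i : κ) (c : ℕ), D (t i + c)⁻¹ = -D (t i) / (t i + c) ^ 2

/-- The vectors of the values of the maps `D` (admissible for `t`) at the coordinates. -/
def space {κ l : Type} (t : κ → ℂ) (s : l → ℂ) : Submodule ℂ ((κ ⊕ l) × Fin 4 → ℂ) where
  carrier := {v | ∃ D : ℂ →ₗ[ℚ] ℂ, Admissible t D ∧ v = fun x => D (coordinates t s x)}
  zero_mem' := ⟨0, ⟨fun _ _ => rfl, fun _ _ => by simp⟩, rfl⟩
  add_mem' := by
    rintro _ _ ⟨D, ⟨h1, h2⟩, rfl⟩ ⟨D', ⟨h3, h4⟩, rfl⟩
    refine ⟨D + D', ⟨fun a ha => ?_, fun i c => ?_⟩, rfl⟩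
    · rw [LinearMap.add_apply, h1 a ha, h3 a ha, add_zero]
    · rw [LinearMap.add_apply, LinearMap.add_apply, h2, h4]
      ring
  smul_mem' := by
    rintro a _ ⟨D, ⟨h1, h2⟩, rfl⟩
    refine ⟨a • D, ⟨fun b hb => ?_, fun i c => ?_⟩, rfl⟩
    · rw [LinearMap.smul_apply, h1 b hb, smul_zero]
    · rw [LinearMap.smul_apply, LinearMap.smul_apply, h2, smul_eq_mul, smul_eq_mul]
      ring

/-- the values at a point -/
noncomputable def values (z : UpperHalfPlane) : Fin 3 → ℂ :=
  ![J z, deriv J z, deriv (deriv J) z]

/-- the names of the coordinates -/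
def names (κ l : Type) : κ × Option (Fin 3) ⊕ l × Fin 4 ≃ (κ ⊕ l) × Fin 4 :=
  (Equiv.sumCongr (Equiv.prodCongr (Equiv.refl κ) (finSuccEquiv 3).symm) (Equiv.refl _)).trans
    (Equiv.sumProdDistrib κ l (Fin 4)).symm

/-- the coordinates at the special points -/
noncomputable def par {l : Type} (s : l → ℂ) (x : l × Fin 4) : ℂ := numbers (s x.1) x.2

theorem names_apply {κ l : Type} (t : κ → UpperHalfPlane) (s : l → ℂ)
    (x : κ × Option (Fin 3) ⊕ l × Fin 4) :
    coordinates (fun i => (t i : ℂ)) s (names κ l x) = SL.co values (par s) t x := by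
  rcases x with ⟨i, _ | a⟩ | x
  · rfl
  · change numbers (t i) (a.succ) = values (t i) a
    fin_cases a <;> rfl
  · rfl

theorem finrank_space {κ l : Type} [Fintype κ] [Fintype l] (t : κ → UpperHalfPlane) (s : l → ℂ) :
    Module.finrank ℂ (space (fun i => (t i : ℂ)) s) =
      Module.finrank ℂ (SL.Der values (par s) t) := by
  refine SL.finrank_names t (names κ l) _ (names_apply t s) _ fun v => ?_
  constructor
  · rintro ⟨D, ⟨h1, h2⟩, rfl⟩
    exact ⟨D, ⟨h1, h2⟩, rfl⟩
  · rintro ⟨D, ⟨h1, h2⟩, rfl⟩
    exact ⟨D, ⟨h1, h2⟩, rfl⟩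

/-- the tuple as a tuple of points -/
def tup {κ : Type} [Fintype κ] {z : κ → ℂ} (hz : General z) : SL.Tup :=
  ⟨κ, fun i => ⟨z i, hz.im_pos i⟩⟩

theorem good_tup {κ : Type} [Fintype κ] {z : κ → ℂ} (hz : General z) : SL.Good (tup hz) :=
  ⟨hz.not_special, hz.inequivalent⟩

theorem general_of {B : SL.Tup} (hB : SL.Good B) : General fun i => (B.t i : ℂ) :=
  ⟨fun i => (B.t i).im_pos, hB.1, hB.2⟩

/-- **The modular Schanuel conjecture with derivatives and special points is equivalent to a statement
on `ℚ`-linear relations**; and, for a fixed finite family `s` of complex numbers, the smallest defects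
over all the extensions of a given tuple `t` are equal. -/
theorem result :
    (Conjecture ↔ ∀ (κ l : Type) [Fintype κ] [Fintype l] (t : κ → ℂ) (s : l → ℂ),
      General t → Special s →
        3 * Fintype.card κ + Fintype.card l ≤ Module.finrank ℂ (space t s)) ∧
    ∀ (l : Type) [Fintype l] (s : l → ℂ) (ι : Type) [Fintype ι] (t : ι → ℂ), General t →
      ∀ d : ℤ,
      (∀ (κ : Type) [Fintype κ] (y : κ → ℂ), General y → Set.range t ⊆ Set.range y →
        ∃ σ : Finset ((κ ⊕ l) × Fin 4),
          AlgebraicIndependent ℚ (fun x : σ => coordinates y s x) ∧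
            3 * (Fintype.card κ : ℤ) + d ≤ σ.card) ↔
      (∀ (κ : Type) [Fintype κ] (y : κ → ℂ), General y → Set.range t ⊆ Set.range y →
        3 * (Fintype.card κ : ℤ) + d ≤ Module.finrank ℂ (space y s)) := by
  have hcard : ∀ κ : Type, ∀ _ : Fintype κ, ((Fintype.card (Fin 3) * Fintype.card κ : ℕ) : ℤ) =
      3 * (Fintype.card κ : ℤ) := by
    intro κ _
    rw [Fintype.card_fin]
    push_cast
    ring
  have hloc : ∀ (l : Type) [Fintype l] (s : l → ℂ) (ι : Type) [Fintype ι] (t : ι → ℂ),
      General t → ∀ d : ℤ,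
      (∀ (κ : Type) [Fintype κ] (y : κ → ℂ), General y → Set.range t ⊆ Set.range y →
        ∃ σ : Finset ((κ ⊕ l) × Fin 4),
          AlgebraicIndependent ℚ (fun x : σ => coordinates y s x) ∧
            3 * (Fintype.card κ : ℤ) + d ≤ σ.card) ↔
      (∀ (κ : Type) [Fintype κ] (y : κ → ℂ), General y → Set.range t ⊆ Set.range y →
        3 * (Fintype.card κ : ℤ) + d ≤ Module.finrank ℂ (space y s)) := by
    intro l _ s ι _ z hz d
    have h1 := SL.local_iff values (par s) (tup hz) d
    have hsub : ∀ (κ : Type) (_ : Fintype κ) (y : κ → ℂ) (hy : General y),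
        Set.range z ⊆ Set.range y ↔ SL.Sub (tup hz) (tup hy) := by
      intro κ _ y hy
      constructor
      · intro h
        choose g hg using fun i => h ⟨i, rfl⟩
        exact ⟨g, fun i => UpperHalfPlane.ext (hg i)⟩
      · rintro ⟨g, hg⟩ _ ⟨i, rfl⟩
        exact ⟨g i, congrArg (fun w : UpperHalfPlane => (w : ℂ)) (hg i)⟩
    constructor
    · intro h κ _ y hy hzy
      have h2 := h1.1 (fun B hB hAB => by
        have h3 := h B.κ (fun i => (B.t i : ℂ)) (general_of hB)
          ((hsub _ _ _ (general_of hB)).2 hAB)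
        rw [hcard]
        exact (SL.indep_names B.t (names B.κ l) _ (names_apply B.t s) _).2 h3) (tup hy)
          (good_tup hy) ((hsub _ _ _ hy).1 hzy)
      rw [hcard] at h2
      rw [← finrank_space] at h2
      exact h2
    · intro h κ _ y hy hzy
      have h2 := h1.2 (fun B hB hAB => by
        have h3 := h B.κ (fun i => (B.t i : ℂ)) (general_of hB)
          ((hsub _ _ _ (general_of hB)).2 hAB)
        rw [hcard, ← finrank_space]
        exact h3) (tup hy) (good_tup hy) ((hsub _ _ _ hy).1 hzy)
      rw [hcard] at h2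
      exact (SL.indep_names (tup hy).t (names κ l) _ (names_apply (tup hy).t s) _).1 h2
  refine ⟨?_, hloc⟩
  have hempty : General (Empty.elim : Empty → ℂ) :=
    ⟨fun i => i.elim, fun i => i.elim, fun i => i.elim⟩
  have hran : ∀ (κ : Type) (y : κ → ℂ), Set.range (Empty.elim : Empty → ℂ) ⊆ Set.range y := by
    rintro κ y _ ⟨i, -⟩
    exact i.elim
  constructor
  · intro h κ l _ _ t s ht hs
    have h0 := (hloc l s Empty Empty.elim hempty (Fintype.card l)).1 (by
      intro κ _ y hy _
      let e := Fintype.equivFin κ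
      let e' := Fintype.equivFin l
      have hy' : General (y ∘ e.symm) :=
        ⟨fun i => hy.im_pos _, fun i => hy.not_special _, fun i k hik =>
          hy.inequivalent _ _ fun h => hik (e.symm.injective h)⟩
      have hs' : Special (s ∘ e'.symm) :=
        ⟨fun i => hs.im_pos _, fun i => hs.special _, fun i => hs.deriv_ne _, fun i k hik =>
          hs.inequivalent _ _ fun h => hik (e'.symm.injective h)⟩
      obtain ⟨f, hf⟩ := h _ _ _ _ hy' hs'
      let g : (Fin (Fintype.card κ) ⊕ Fin (Fintype.card l)) × Fin 4 → (κ ⊕ l) × Fin 4 :=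
        fun x => (Sum.map e.symm e'.symm x.1, x.2)
      have hg : ∀ x, coordinates y s (g x) = coordinates (y ∘ e.symm) (s ∘ e'.symm) x := by
        rintro ⟨i | i, k⟩ <;> rfl
      have h1 := (SL.indep_fin (coordinates y s)
        (3 * Fintype.card κ + Fintype.card l)).2 ⟨fun k => g (f k), by
          simp only [hg]
          exact hf⟩
      obtain ⟨σ, hσ, h2⟩ := h1
      exact ⟨σ, hσ, by exact_mod_cast h2⟩) κ t ht (hran _ _)
    exact_mod_cast h0
  · intro h m₁ m₂ t s ht hs
    have h0 := (hloc (Fin m₂) s Empty Empty.elim hempty m₂).2 (by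
      intro κ _ y hy _
      have h1 := h κ (Fin m₂) y s hy hs
      rw [Fintype.card_fin] at h1
      exact_mod_cast h1) (Fin m₁) t ht (hran _ _)
    obtain ⟨σ, hσ, h1⟩ := h0
    rw [Fintype.card_fin] at h1
    exact (SL.indep_fin (coordinates t s) (3 * m₁ + m₂)).1 ⟨σ, hσ, by exact_mod_cast h1⟩

end Pool.Agent.Results.MP_f58a57_nt.InversionsSufficeSpecial
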